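import Mathlib
import Pool.Agent.helper336_cube.Greedy2

set_option autoImplicit false

namespace Pool.Agent.Results.MP_09b4c2_co.CubeOrderedThreeHalves

open Pool.Agent.helper336_cube

/-- Some ordering of the `d`-cube has ordered Ramsey number at most
`2 ^ (c * d * (log d + 1))`. -/
theorem result :
    ∃ c : ℕ, ∀ d : ℕ, ∃ σ : Fin (2 ^ d) ≃ (Fin d → Bool),
      ∀ f : Fin (2 ^ (c * (d * (Nat.log 2 d + 1)))) →
          Fin (2 ^ (c * (d * (Nat.log 2 d + 1)))) → Bool,
        ∃ g : Fin (2 ^ d) → Fin (2 ^ (c * (d * (Nat.log 2 d + 1)))),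
          StrictMono g ∧
          ∃ b : Bool, ∀ i j : Fin (2 ^ d), i < j →
            hammingDist (σ i) (σ j) = 1 → f (g i) (g j) = b := by
  refine ⟨310, ?_⟩
  intro d
  obtain ⟨σ, hσ⟩ := exists_order d
  refine ⟨σ, ?_⟩
  set r := Nat.log 2 d with hr
  intro f
  rcases Nat.eq_zero_or_pos d with hd | hd
  · subst hd
    refine ⟨fun _ => ⟨0, by positivity⟩, ?_, true, ?_⟩
    · intro i j hij
      have h2 : (j : ℕ) < 1 := j.isLt
      have h3 := Fin.lt_def.mp hij
      omega
    · intro i j hij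
      have h2 : (j : ℕ) < 1 := j.isLt
      have h3 := Fin.lt_def.mp hij
      omega
  · set l := Nat.log 2 (d + 2) + 1 with hl
    have hl1 : d + 2 < 2 ^ l := Nat.lt_pow_succ_log_self (by norm_num) _
    have hl2 : l ≤ r + 3 := by
      have h1 : d < 2 ^ (r + 1) := Nat.lt_pow_succ_log_self (by norm_num) d
      have h2 : d + 2 < 2 ^ (r + 3) := by
        have e : 2 ^ (r + 3) = 4 * 2 ^ (r + 1) := by ring
        omega
      have h3 := Nat.log_lt_of_lt_pow (by omega : d + 2 ≠ 0) h2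
      omega
    have hf : 1024 * (d + 1) ^ 2 ≤ 2 ^ (10 + 2 * l) := by
      have h1 : (d + 1) ^ 2 ≤ (2 ^ l) ^ 2 := Nat.pow_le_pow_left (by omega) 2
      have e : 2 ^ (10 + 2 * l) = 1024 * (2 ^ l) ^ 2 := by
        rw [pow_add, mul_comm 2 l, pow_mul]
        norm_num
      rw [e]
      exact Nat.mul_le_mul_left _ h1
    refine greedy2 (sparseOK_of hl1 hf) (by omega) hσ ?_ f
    rw [← pow_add]
    refine Nat.pow_le_pow_right (by norm_num) ?_
    have h1 : l ≤ 3 * (r + 1) := by omega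
    have h2 : 54 * l ≤ d * (162 * (r + 1)) := by
      calc 54 * l ≤ 1 * (162 * (r + 1)) := by omega
        _ ≤ d * (162 * (r + 1)) := Nat.mul_le_mul_right _ hd
    have h3 : 2 * (10 + 2 * l) * d ≤ d * (20 + 12 * (r + 1)) := by
      calc 2 * (10 + 2 * l) * d = d * (20 + 4 * l) := by ring
        _ ≤ d * (20 + 12 * (r + 1)) := Nat.mul_le_mul_left _ (by omega)
    have h4 : 1 + 109 + (20 + 12 * (r + 1)) + 162 * (r + 1) ≤ 310 * (r + 1) := by omega
    calc d + (109 * d + 54 * l + 2 * (10 + 2 * l) * d)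
        ≤ d + (109 * d + d * (162 * (r + 1)) + d * (20 + 12 * (r + 1))) := by omega
      _ = d * (1 + 109 + (20 + 12 * (r + 1)) + 162 * (r + 1)) := by ring
      _ ≤ d * (310 * (r + 1)) := Nat.mul_le_mul_left _ h4
      _ = 310 * (d * (r + 1)) := by ring

end Pool.Agent.Results.MP_09b4c2_co.CubeOrderedThreeHalves
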